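import Pool.Agent.N206.CG.Af

/-!
Project CG of helper206, part F7: rigidity of sequences of affine conjugations (helper519).
-/

set_option autoImplicit false

namespace Pool.Agent.N519.CG

open Pool.Agent.N206.CG Pool.Agent.N206.CG.Af

section

variable {R : Type} [CommRing R]

/-- a power of the exchange -/
def swp (R : Type) [CommRing R] (e : Bool) : Equiv.Perm (EE R) := if e = true then sw R else 1

/-- the rows after the exchange -/
def rw' (e : Bool) (k : Fin 2) : Fin 2 := if e = true then Equiv.swap 0 1 k else k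

theorem swp_apply (e : Bool) (x : EE R) (k : Fin 2) (i : Fin 5) :
    (swp R e x).1 k i = x.1 (rw' e k) i := by
  cases e
  · rfl
  · rfl

theorem swp_add (e : Bool) (x y : EE R) : swp R e (x + y) = swp R e x + swp R e y := by
  apply Subtype.ext
  funext k i
  rw [swp_apply]
  show (x + y).1 (rw' e k) i = (swp R e x).1 k i + (swp R e y).1 k i
  rw [swp_apply, swp_apply]
  rfl

theorem swp_pa (e : Bool) (a : Equiv.Perm (Fin 5)) (x : EE R) :
    swp R e (pa a x) = pa a (swp R e x) := by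
  apply Subtype.ext
  funext k i
  rw [swp_apply, pa_apply, pa_apply, swp_apply]

theorem red_swp {R' : Type} [CommRing R'] (f : R →+* R') (e : Bool) (x : EE R) :
    redE f (swp R e x) = swp R' e (redE f x) := by
  apply Subtype.ext
  funext k i
  rw [swp_apply]
  show f ((swp R e x).1 k i) = f (x.1 (rw' e k) i)
  rw [swp_apply]

theorem conj_tr (A : A5) (w v : EE R) (e : Bool) :
    (act ⟨A, w⟩ * swp R e) * act ⟨1, v⟩ * (act ⟨A, w⟩ * swp R e)⁻¹ =
      act ⟨1, pa A (swp R e v)⟩ := by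
  rw [mul_inv_eq_iff_eq_mul]
  apply Equiv.ext
  intro x
  show w + pa A (swp R e (v + x)) = pa A (swp R e v) + (w + pa A (swp R e x))
  rw [swp_add, pa_add]
  abel

theorem conj_lin (A c : A5) (w : EE R) (e : Bool) :
    (act ⟨A, w⟩ * swp R e) * act ⟨c, 0⟩ * (act ⟨A, w⟩ * swp R e)⁻¹ =
      act ⟨A * c * A⁻¹, w - pa ((A * c * A⁻¹ : A5) : Equiv.Perm (Fin 5)) w⟩ := by
  rw [mul_inv_eq_iff_eq_mul]
  apply Equiv.ext
  intro x
  show w + pa A (swp R e (0 + pa c x)) =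
    (w - pa ((A * c * A⁻¹ : A5) : Equiv.Perm (Fin 5)) w) +
      pa ((A * c * A⁻¹ : A5) : Equiv.Perm (Fin 5)) (w + pa A (swp R e x))
  rw [zero_add, swp_pa, pa_add, ← pa_mul, ← pa_mul]
  have h1 : ((A * c * A⁻¹ : A5) : Equiv.Perm (Fin 5)) * (A : Equiv.Perm (Fin 5)) =
      (A : Equiv.Perm (Fin 5)) * c := by
    rw [← Subgroup.coe_mul, ← Subgroup.coe_mul, inv_mul_cancel_right]
  rw [h1]
  abel

end

/-- the basic vector -/
def vv : Fin 5 → ℤ := ![1, 2, 3, 4, -10]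

theorem vv_inj : ∀ i j, vv i = vv j → i = j := by decide

theorem vv_ne : ∀ i, vv i ≠ 0 := by decide

theorem vv_le : ∀ i, |vv i| ≤ 10 := by decide

/-- the basic pair -/
def v0 : EE ℤ := ⟨fun k i => if k = 0 then vv i else 0, by
  intro k
  fin_cases k <;> decide⟩

theorem small (p : ℕ) (hp : 1000 ≤ p) (a b : ℤ) (h : |a| + |b| < p)
    (hab : ((a : ℤ) : ZMod p) = ((b : ℤ) : ZMod p)) : a = b := by
  have _ := hp
  rw [ZMod.intCast_eq_intCast_iff_dvd_sub] at hab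
  have h1 : b - a = 0 := by
    apply Int.eq_zero_of_abs_lt_dvd hab
    have h2 := abs_sub b a
    linarith
  linarith

theorem v0_le (k : Fin 2) (i : Fin 5) : |v0.1 k i| ≤ 10 := by
  show |if k = 0 then vv i else 0| ≤ 10
  split_ifs
  · exact vv_le i
  · norm_num

theorem act_inj (p : ℕ) (hp : 1000 ≤ p) (g h : Aff (ZMod p)) (hgh : act g = act h) : g = h := by
  have h1 : g.t = h.t := by
    have := congrArg (fun s : Equiv.Perm (EE (ZMod p)) => s 0) hgh
    simp only [act_apply, pa_zero, add_zero] at this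
    exact this
  have h2 : ∀ x : EE (ZMod p), pa g.a x = pa h.a x := by
    intro x
    have := congrArg (fun s : Equiv.Perm (EE (ZMod p)) => s x) hgh
    simp only [act_apply] at this
    rw [h1] at this
    exact add_left_cancel this
  apply Aff.ext
  · apply Subtype.ext
    apply inv_injective
    apply Equiv.ext
    intro i
    have h3 := congrArg (fun x : EE (ZMod p) => x.1 0 i) (h2 (redE (Int.castRingHom (ZMod p)) v0))
    have h4 : ((vv ((g.a : Equiv.Perm (Fin 5))⁻¹ i) : ℤ) : ZMod p) =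
        ((vv ((h.a : Equiv.Perm (Fin 5))⁻¹ i) : ℤ) : ZMod p) := h3
    refine vv_inj _ _ (small p hp _ _ ?_ h4)
    have h5 := vv_le ((g.a : Equiv.Perm (Fin 5))⁻¹ i)
    have h6 := vv_le ((h.a : Equiv.Perm (Fin 5))⁻¹ i)
    have h7 : (1000 : ℤ) ≤ p := by exact_mod_cast hp
    linarith
  · exact h1

/-- the images of the basic pair -/
def zz (A : A5) (e : Bool) : EE ℤ := pa A (swp ℤ e v0)

theorem zz_apply (A : A5) (e : Bool) (k : Fin 2) (i : Fin 5) :
    (zz A e).1 k i = v0.1 (rw' e k) ((A : Equiv.Perm (Fin 5))⁻¹ i) := by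
  unfold zz
  rw [pa_apply, swp_apply]

theorem zz_le (A : A5) (e : Bool) (k : Fin 2) (i : Fin 5) : |(zz A e).1 k i| ≤ 10 := by
  rw [zz_apply]
  exact v0_le _ _

theorem v0_row0 (i : Fin 5) : v0.1 0 i = vv i := rfl
theorem v0_row1 (i : Fin 5) : v0.1 1 i = 0 := rfl

theorem zz_inj (A A' : A5) (e e' : Bool) (h : ∀ k i, (zz A e).1 k i = (zz A' e').1 k i) :
    A = A' ∧ e = e' := by
  simp only [zz_apply] at h
  have h1 : e = e' := by
    by_contra hne
    rcases Bool.eq_false_or_eq_true e with he | he <;>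
      rcases Bool.eq_false_or_eq_true e' with he' | he'
    · exact hne (by rw [he, he'])
    · have h2 := h 1 0
      rw [he, he'] at h2
      exact vv_ne _ h2
    · have h2 := h 0 0
      rw [he, he'] at h2
      exact vv_ne _ h2
    · exact hne (by rw [he, he'])
  subst h1
  refine ⟨?_, rfl⟩
  apply Subtype.ext
  apply inv_injective
  apply Equiv.ext
  intro i
  apply vv_inj
  cases e
  · exact h 0 i
  · exact h 1 i

theorem count : ∀ i j : Fin 5, (Finset.univ.filter fun b : A5 =>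
    ((b : Equiv.Perm (Fin 5))⁻¹ i) = j).card = 12 := by
  decide +kernel

theorem card60 : (Finset.univ : Finset A5).card = 60 := by decide +kernel

theorem sum_zero {S : Type} [CommRing S] (x : Fin 5 → S) (hx : ∑ i, x i = 0) (i : Fin 5) :
    ∑ b : A5, x ((b : Equiv.Perm (Fin 5))⁻¹ i) = 0 := by
  rw [← Finset.sum_fiberwise (s := (Finset.univ : Finset A5))
    (g := fun b : A5 => (b : Equiv.Perm (Fin 5))⁻¹ i)]
  have h1 : ∀ j : Fin 5, ∑ b ∈ (Finset.univ : Finset A5).filter (fun b : A5 =>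
      (b : Equiv.Perm (Fin 5))⁻¹ i = j), x ((b : Equiv.Perm (Fin 5))⁻¹ i) = 12 * x j := by
    intro j
    have h2 : ∑ b ∈ (Finset.univ : Finset A5).filter (fun b : A5 =>
        (b : Equiv.Perm (Fin 5))⁻¹ i = j), x ((b : Equiv.Perm (Fin 5))⁻¹ i) =
        ∑ b ∈ (Finset.univ : Finset A5).filter (fun b : A5 =>
        (b : Equiv.Perm (Fin 5))⁻¹ i = j), x j :=
      Finset.sum_congr rfl fun b hb => by rw [(Finset.mem_filter.1 hb).2]
    rw [h2, Finset.sum_const, count i j, nsmul_eq_mul]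
    norm_num
  rw [Finset.sum_congr rfl fun j _ => h1 j, ← Finset.mul_sum, hx, mul_zero]

/-- the class of a sequence -/
def Cl (t : ∀ n, Equiv.Perm (EE (ZMod (pp n)))) (c : A5 × Bool × (Fin 2 → Fin 5 → ZMod 60)) : Prop :=
  ∃ w : EE ℤ, (∀ k i, ((w.1 k i : ℤ) : ZMod 60) = c.2.2 k i) ∧ ∀ n, 1 ≤ n →
    ∃ v : EE (ZMod (pp n)), (∀ k i, ((w.1 k i : ℤ) : ZMod (pp n)) = 60 * v.1 k i) ∧
      t n = act ⟨c.1, v⟩ * swp _ c.2.1

theorem sixty (n : ℕ) : (60 : ZMod (pp n)) ≠ 0 := by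
  intro h
  have h1 : ((60 : ℤ) : ZMod (pp n)) = ((0 : ℤ) : ZMod (pp n)) := by
    push_cast
    exact h
  have h2 := pp_ge n
  have h3 := small (pp n) h2 60 0 (by
    have : (1000 : ℤ) ≤ pp n := by exact_mod_cast h2
    norm_num
    linarith) h1
  norm_num at h3

theorem rel (t t' : ∀ n, Equiv.Perm (EE (ZMod (pp n))))
    (c : A5 × Bool × (Fin 2 → Fin 5 → ZMod 60)) (h : Cl t c) (h' : Cl t' c) :
    ∃ b, ∀ n, 1 ≤ n → t n = rr n b * t' n := by
  obtain ⟨w, hw, ht⟩ := h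
  obtain ⟨w', hw', ht'⟩ := h'
  have h1 : ∀ k i, ∃ u : ℤ, w.1 k i - w'.1 k i = 60 * u := by
    intro k i
    have h2 : ((w'.1 k i : ℤ) : ZMod 60) = ((w.1 k i : ℤ) : ZMod 60) := by rw [hw, hw']
    exact (ZMod.intCast_eq_intCast_iff_dvd_sub _ _ 60).1 h2
  choose u hu using h1
  have hsum : ∀ k, ∑ i, u k i = 0 := by
    intro k
    have h2 : (60 : ℤ) * ∑ i, u k i = 0 := by
      rw [Finset.mul_sum]
      rw [Finset.sum_congr rfl fun i _ => (hu k i).symm, Finset.sum_sub_distrib, w.2 k, w'.2 k,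
        sub_zero]
    linarith
  refine ⟨⟨1, ⟨u, hsum⟩⟩, fun n hn => ?_⟩
  obtain ⟨v, hv, htv⟩ := ht n hn
  obtain ⟨v', hv', htv'⟩ := ht' n hn
  have : Fact (pp n).Prime := ⟨pp_prime n⟩
  rw [htv, htv', ← mul_assoc]
  congr 1
  show act ⟨c.1, v⟩ = act (⟨1, redE (Int.castRingHom (ZMod (pp n))) ⟨u, hsum⟩⟩ : Aff (ZMod (pp n))) *
    act ⟨c.1, v'⟩
  rw [← map_mul]
  congr 1
  apply Aff.ext
  · show c.1 = 1 * c.1
    rw [one_mul]
  · apply Subtype.ext
    funext k i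
    show v.1 k i = ((u k i : ℤ) : ZMod (pp n)) + v'.1 k i
    have h3 : (60 : ZMod (pp n)) * (v.1 k i - v'.1 k i) = 60 * ((u k i : ℤ) : ZMod (pp n)) := by
      rw [mul_sub, ← hv, ← hv', ← Int.cast_sub, hu]
      push_cast
      rfl
    have h4 := mul_left_cancel₀ (sixty n) h3
    rw [← h4]
    ring

theorem exists_cl (t : ∀ n, Equiv.Perm (EE (ZMod (pp n))))
    (ht : ∀ n, 1 ≤ n → ∃ g ∈ PP (ZMod (pp n)), t n = g ∨ t n = g * sw (ZMod (pp n)))
    (hf : ∃ f : Aff ℤ →* Aff ℤ, ∀ n, 1 ≤ n → ∀ b, rr n (f b) = t n * rr n b * (t n)⁻¹) :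
    ∃ c, Cl t c := by
  obtain ⟨f, hf⟩ := hf
  have h1 : ∀ n, ∃ (A : A5) (w : EE (ZMod (pp n))) (e : Bool), 1 ≤ n →
      t n = act ⟨A, w⟩ * swp _ e := by
    intro n
    by_cases hn : 1 ≤ n
    · obtain ⟨g, ⟨⟨A, w⟩, hg⟩, h | h⟩ := ht n hn
      · refine ⟨A, w, false, fun _ => ?_⟩
        rw [h, ← hg]
        exact (mul_one _).symm
      · refine ⟨A, w, true, fun _ => ?_⟩
        rw [h, ← hg]
        rfl
    · exact ⟨1, 0, false, fun h => absurd h hn⟩
  choose A w e hA using h1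
  -- step 1
  obtain ⟨g, hg⟩ : ∃ g, g = f ⟨1, v0⟩ := ⟨_, rfl⟩
  have h2 : ∀ n, 1 ≤ n → ∀ k i, ((g.t.1 k i : ℤ) : ZMod (pp n)) =
      (((zz (A n) (e n)).1 k i : ℤ) : ZMod (pp n)) := by
    intro n hn k i
    have h3 := hf n hn ⟨1, v0⟩
    rw [← hg, hA n hn] at h3
    have h4 : act (⟨g.a, redE (Int.castRingHom (ZMod (pp n))) g.t⟩ : Aff (ZMod (pp n))) =
        act ⟨1, pa (A n) (swp _ (e n) (redE (Int.castRingHom (ZMod (pp n))) v0))⟩ := by
      rw [← conj_tr (A n) (w n)]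
      exact h3
    have h5 := act_inj (pp n) (pp_ge n) _ _ h4
    have h6 := congrArg (fun x : Aff (ZMod (pp n)) => x.t.1 k i) h5
    rw [← red_swp] at h6
    exact h6
  obtain ⟨B, hB⟩ : ∃ B : ℤ, ∀ k i, |g.t.1 k i| ≤ B := by
    refine ⟨∑ k, ∑ i, |g.t.1 k i|, fun k i => ?_⟩
    refine le_trans ?_ (Finset.single_le_sum (f := fun k => ∑ i, |g.t.1 k i|)
      (fun k _ => Finset.sum_nonneg fun i _ => abs_nonneg _) (Finset.mem_univ k))
    exact Finset.single_le_sum (f := fun i => |g.t.1 k i|) (fun i _ => abs_nonneg _)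
      (Finset.mem_univ i)
  obtain ⟨n₀, hn₀, hB₀⟩ : ∃ n₀ : ℕ, 1 ≤ n₀ ∧ B + 10 < pp n₀ := by
    refine ⟨B.toNat + 1, by omega, ?_⟩
    have h3 := pp_le (B.toNat + 1)
    have h4 : B.toNat + 1 + 10 < 2 ^ (B.toNat + 1 + 10) := Nat.lt_two_pow_self
    have h5 : B ≤ B.toNat := Int.self_le_toNat B
    have h6 : B.toNat + 1 + 10 < pp (B.toNat + 1) := by omega
    have h7 : ((B.toNat : ℤ) + 1 + 10) < pp (B.toNat + 1) := by exact_mod_cast h6
    linarith
  have h3 : ∀ k i, g.t.1 k i = (zz (A n₀) (e n₀)).1 k i := by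
    intro k i
    apply small (pp n₀) (pp_ge n₀) _ _ ?_ (h2 n₀ hn₀ k i)
    have := hB k i
    have := zz_le (A n₀) (e n₀) k i
    linarith
  have h4 : ∀ n, 1 ≤ n → A n = A n₀ ∧ e n = e n₀ := by
    intro n hn
    apply zz_inj
    intro k i
    symm
    apply small (pp n) (pp_ge n) _ _ ?_
    · rw [← h3 k i]
      exact h2 n hn k i
    · have h5 := zz_le (A n₀) (e n₀) k i
      have h6 := zz_le (A n) (e n) k i
      have h7 : (1000 : ℤ) ≤ pp n := by exact_mod_cast pp_ge n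
      linarith
  -- step 2
  obtain ⟨z, hz⟩ : ∃ z : A5 → EE ℤ, z = fun c => (f ⟨c, 0⟩).t := ⟨_, rfl⟩
  have h5 : ∀ n, 1 ≤ n → ∀ c : A5, ∀ k i, (((z c).1 k i : ℤ) : ZMod (pp n)) =
      (w n).1 k i - (w n).1 k (((A n₀ * c * (A n₀)⁻¹ : A5) : Equiv.Perm (Fin 5))⁻¹ i) := by
    intro n hn c k i
    have h6 := hf n hn ⟨c, 0⟩
    rw [hA n hn, (h4 n hn).1, (h4 n hn).2] at h6
    have hr : rr n ⟨c, 0⟩ = act (⟨c, 0⟩ : Aff (ZMod (pp n))) := by
      show act (⟨c, redE (Int.castRingHom (ZMod (pp n))) 0⟩ : Aff (ZMod (pp n))) = _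
      congr 2
      apply Subtype.ext
      funext k i
      exact map_zero _
    rw [hr, conj_lin] at h6
    have h7 := act_inj (pp n) (pp_ge n) (red (Int.castRingHom (ZMod (pp n))) (f ⟨c, 0⟩)) _ h6
    have h8 := congrArg (fun x : Aff (ZMod (pp n)) => x.t.1 k i) h7
    rw [hz]
    exact h8
  refine ⟨(A n₀, e n₀, fun k i => (((∑ c, z c : EE ℤ).1 k i : ℤ) : ZMod 60)), ∑ c, z c,
    fun k i => rfl, fun n hn => ⟨w n, ?_, ?_⟩⟩
  · intro k i
    have h6 : (∑ c, z c : EE ℤ).1 k i = ∑ c, (z c).1 k i := by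
      rw [AddSubgroup.val_finsetSum, Finset.sum_apply, Finset.sum_apply]
    rw [h6, Int.cast_sum, Finset.sum_congr rfl fun c _ => h5 n hn c k i, Finset.sum_sub_distrib,
      Finset.sum_const, card60]
    have h7 : ∑ c : A5, (w n).1 k (((A n₀ * c * (A n₀)⁻¹ : A5) : Equiv.Perm (Fin 5))⁻¹ i) = 0 := by
      rw [← sum_zero (fun j => (w n).1 k j) ((w n).2 k) i]
      exact Fintype.sum_equiv (MulAut.conj (A n₀)).toEquiv _ _ fun c => rfl
    rw [h7, sub_zero, nsmul_eq_mul]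
    norm_num
  · show t n = act ⟨A n₀, w n⟩ * swp _ (e n₀)
    rw [hA n hn, (h4 n hn).1, (h4 n hn).2]

theorem t_F7 (_h : S_F6) : S_F7 := by
  classical
  refine ⟨Set.range fun c : A5 × Bool × (Fin 2 → Fin 5 → ZMod 60) =>
    if h : ∃ t, Cl t c then h.choose else fun _ => 1, Set.finite_range _, ?_⟩
  intro t ht hf
  obtain ⟨c, hc⟩ := exists_cl t ht hf
  have h1 : ∃ t, Cl t c := ⟨t, hc⟩
  refine ⟨h1.choose, ⟨c, ?_⟩, rel t h1.choose c hc h1.choose_spec⟩
  exact dif_pos h1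

end Pool.Agent.N519.CG
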